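import Mathlib

/-!
# Working form of a family of pairwise orthogonal Knut Vik designs

The product construction with a carry in the cyclic group and the linear designs of prime order
(as in the earlier hand-in `SmallPrimeGain` of this problem).
-/

namespace Pool.Agent.KVP88

/-- The working form: `k` pairwise orthogonal Knut Vik designs with symbols in a type `S`
with `n` elements. -/
def KV (n k : ℕ) : Prop :=
  ∃ (S : Type) (_ : Fintype S), Fintype.card S = n ∧ ∃ L : Fin k → ZMod n → ZMod n → S,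
    (∀ a u v v', L a u v = L a u v' → v = v') ∧
    (∀ a u u' v, L a u v = L a u' v → u = u') ∧
    (∀ a u v u' v', L a u v = L a u' v' → u - v = u' - v' → u = u') ∧
    (∀ a u v u' v', L a u v = L a u' v' → u + v = u' + v' → u = u') ∧
    (∀ a b, a ≠ b → ∀ u v u' v', L a u v = L a u' v' → L b u v = L b u' v' → u = u' ∧ v = v')

theorem KV.mono {n k l : ℕ} (h : KV n k) (hl : l ≤ k) : KV n l := by
  obtain ⟨S, i, hS, L, h1, h2, h3, h4, h5⟩ := h
  refine ⟨S, i, hS, fun a => L (Fin.castLE hl a), fun a => h1 _, fun a => h2 _, fun a => h3 _,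
    fun a => h4 _, fun a b hab => h5 _ _ ?_⟩
  intro hh
  exact hab (Fin.castLE_injective hl hh)

/-- Key fact on the two digits of residues modulo `m * n`. -/
theorem digit_sub {m n : ℕ} [NeZero m] [NeZero n] (x y x' y' : ZMod (m * n))
    (hx : x.val % m = x'.val % m) (hy : y.val % m = y'.val % m) (h : x - y = x' - y') :
    ((x.val / m : ℕ) : ZMod n) - ((y.val / m : ℕ) : ZMod n) =
      ((x'.val / m : ℕ) : ZMod n) - ((y'.val / m : ℕ) : ZMod n) := by
  have : NeZero (m * n) := ⟨mul_ne_zero (NeZero.ne m) (NeZero.ne n)⟩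
  have hm : (m : ℤ) ≠ 0 := by exact_mod_cast NeZero.ne m
  have h1 : (((x.val : ℤ) - y.val : ℤ) : ZMod (m * n)) = (((x'.val : ℤ) - y'.val : ℤ) : ZMod (m * n)) := by
    push_cast
    simpa using h
  rw [ZMod.intCast_eq_intCast_iff] at h1
  have h2 := (Int.modEq_iff_dvd.mp h1)
  obtain ⟨c, hc⟩ := h2
  have ex := Nat.div_add_mod x.val m
  have ey := Nat.div_add_mod y.val m
  have ex' := Nat.div_add_mod x'.val m
  have ey' := Nat.div_add_mod y'.val m
  have key : ((x'.val / m : ℕ) : ℤ) - ((y'.val / m : ℕ) : ℤ) - (((x.val / m : ℕ) : ℤ) - ((y.val / m : ℕ) : ℤ))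
      = n * c := by
    have e1 : (x.val : ℤ) = m * (x.val / m : ℕ) + (x.val % m : ℕ) := by exact_mod_cast ex.symm
    have e2 : (y.val : ℤ) = m * (y.val / m : ℕ) + (y.val % m : ℕ) := by exact_mod_cast ey.symm
    have e3 : (x'.val : ℤ) = m * (x'.val / m : ℕ) + (x'.val % m : ℕ) := by exact_mod_cast ex'.symm
    have e4 : (y'.val : ℤ) = m * (y'.val / m : ℕ) + (y'.val % m : ℕ) := by exact_mod_cast ey'.symm
    apply mul_left_cancel₀ hm
    have e5 : ((x.val % m : ℕ) : ℤ) = ((x'.val % m : ℕ) : ℤ) := by rw [hx]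
    have e6 : ((y.val % m : ℕ) : ℤ) = ((y'.val % m : ℕ) : ℤ) := by rw [hy]
    push_cast at hc
    rw [e1, e2, e3, e4] at hc
    linarith [hc, e5, e6]
  have h3 : ((((x.val / m : ℕ) : ℤ) - ((y.val / m : ℕ) : ℤ) : ℤ) : ZMod n) =
      ((((x'.val / m : ℕ) : ℤ) - ((y'.val / m : ℕ) : ℤ) : ℤ) : ZMod n) := by
    rw [ZMod.intCast_eq_intCast_iff]
    exact Int.modEq_iff_dvd.mpr ⟨c, key⟩
  simpa only [Int.cast_sub, Int.cast_natCast] using h3

theorem digit_add {m n : ℕ} [NeZero m] [NeZero n] (x y x' y' : ZMod (m * n))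
    (hx : x.val % m = x'.val % m) (hy : y.val % m = y'.val % m) (h : x + y = x' + y') :
    ((x.val / m : ℕ) : ZMod n) + ((y.val / m : ℕ) : ZMod n) =
      ((x'.val / m : ℕ) : ZMod n) + ((y'.val / m : ℕ) : ZMod n) := by
  have : NeZero (m * n) := ⟨mul_ne_zero (NeZero.ne m) (NeZero.ne n)⟩
  have hm : (m : ℤ) ≠ 0 := by exact_mod_cast NeZero.ne m
  have h1 : (((x.val : ℤ) + y.val : ℤ) : ZMod (m * n)) = (((x'.val : ℤ) + y'.val : ℤ) : ZMod (m * n)) := by
    push_cast
    simpa using h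
  rw [ZMod.intCast_eq_intCast_iff] at h1
  have h2 := (Int.modEq_iff_dvd.mp h1)
  obtain ⟨c, hc⟩ := h2
  have ex := Nat.div_add_mod x.val m
  have ey := Nat.div_add_mod y.val m
  have ex' := Nat.div_add_mod x'.val m
  have ey' := Nat.div_add_mod y'.val m
  have key : ((x'.val / m : ℕ) : ℤ) + ((y'.val / m : ℕ) : ℤ) - (((x.val / m : ℕ) : ℤ) + ((y.val / m : ℕ) : ℤ))
      = n * c := by
    have e1 : (x.val : ℤ) = m * (x.val / m : ℕ) + (x.val % m : ℕ) := by exact_mod_cast ex.symm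
    have e2 : (y.val : ℤ) = m * (y.val / m : ℕ) + (y.val % m : ℕ) := by exact_mod_cast ey.symm
    have e3 : (x'.val : ℤ) = m * (x'.val / m : ℕ) + (x'.val % m : ℕ) := by exact_mod_cast ex'.symm
    have e4 : (y'.val : ℤ) = m * (y'.val / m : ℕ) + (y'.val % m : ℕ) := by exact_mod_cast ey'.symm
    apply mul_left_cancel₀ hm
    have e5 : ((x.val % m : ℕ) : ℤ) = ((x'.val % m : ℕ) : ℤ) := by rw [hx]
    have e6 : ((y.val % m : ℕ) : ℤ) = ((y'.val % m : ℕ) : ℤ) := by rw [hy]
    push_cast at hc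
    rw [e1, e2, e3, e4] at hc
    linarith [hc, e5, e6]
  have h3 : ((((x.val / m : ℕ) : ℤ) + ((y.val / m : ℕ) : ℤ) : ℤ) : ZMod n) =
      ((((x'.val / m : ℕ) : ℤ) + ((y'.val / m : ℕ) : ℤ) : ℤ) : ZMod n) := by
    rw [ZMod.intCast_eq_intCast_iff]
    exact Int.modEq_iff_dvd.mpr ⟨c, key⟩
  simpa only [Int.cast_add, Int.cast_natCast] using h3

theorem digits_inj {m n : ℕ} [NeZero m] [NeZero n] (x x' : ZMod (m * n))
    (hx : ((x.val : ℕ) : ZMod m) = ((x'.val : ℕ) : ZMod m))
    (hx1 : ((x.val / m : ℕ) : ZMod n) = ((x'.val / m : ℕ) : ZMod n)) : x = x' := by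
  have : NeZero (m * n) := ⟨mul_ne_zero (NeZero.ne m) (NeZero.ne n)⟩
  have h0 : x.val % m = x'.val % m := (ZMod.natCast_eq_natCast_iff _ _ _).mp hx
  have b1 : x.val / m < n := Nat.div_lt_of_lt_mul (ZMod.val_lt x)
  have b2 : x'.val / m < n := Nat.div_lt_of_lt_mul (ZMod.val_lt x')
  have h1 : x.val / m = x'.val / m := by
    have := (ZMod.natCast_eq_natCast_iff _ _ _).mp hx1
    have h2 : x.val / m % n = x'.val / m % n := this
    rwa [Nat.mod_eq_of_lt b1, Nat.mod_eq_of_lt b2] at h2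
  apply ZMod.val_injective
  have ex := Nat.div_add_mod x.val m
  have ex' := Nat.div_add_mod x'.val m
  rw [← ex, ← ex', h0, h1]

/-- The product construction, with a carry in the cyclic group. -/
theorem KV.mul {m n k : ℕ} (hm : 0 < m) (hn : 0 < n) (h : KV m k) (h' : KV n k) :
    KV (m * n) k := by
  have : NeZero m := ⟨hm.ne'⟩
  have : NeZero n := ⟨hn.ne'⟩
  obtain ⟨S, iS, hS, A, a1, a2, a3, a4, a5⟩ := h
  obtain ⟨T, iT, hT, B, b1, b2, b3, b4, b5⟩ := h'
  have cst : ∀ x x' : ZMod (m * n), ((x.val : ℕ) : ZMod m) = ((x'.val : ℕ) : ZMod m) →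
      x.val % m = x'.val % m := fun x x' hx => (ZMod.natCast_eq_natCast_iff _ _ _).mp hx
  have red : ∀ x : ZMod (m * n), ((x.val : ℕ) : ZMod m) = ZMod.castHom (Dvd.intro n rfl) (ZMod m) x := by
    intro x
    have : NeZero (m * n) := ⟨mul_ne_zero hm.ne' hn.ne'⟩
    conv_rhs => rw [← ZMod.natCast_zmod_val x]
    rw [map_natCast]
  refine ⟨S × T, inferInstance, by rw [Fintype.card_prod, hS, hT],
    fun a u v => (A a (u.val : ZMod m) (v.val : ZMod m),
      B a ((u.val / m : ℕ) : ZMod n) ((v.val / m : ℕ) : ZMod n)), ?_, ?_, ?_, ?_, ?_⟩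
  · intro a u v v' hv
    have hv' := Prod.ext_iff.mp hv
    exact digits_inj v v' (a1 a _ _ _ hv'.1) (b1 a _ _ _ hv'.2)
  · intro a u u' v hv
    have hv' := Prod.ext_iff.mp hv
    exact digits_inj u u' (a2 a _ _ _ hv'.1) (b2 a _ _ _ hv'.2)
  · intro a u v u' v' hv hd
    have hv' := Prod.ext_iff.mp hv
    have hdm : ((u.val : ℕ) : ZMod m) - ((v.val : ℕ) : ZMod m) =
        ((u'.val : ℕ) : ZMod m) - ((v'.val : ℕ) : ZMod m) := by
      rw [red, red, red, red, ← map_sub, ← map_sub, hd]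
    have hu := a3 a _ _ _ _ hv'.1 hdm
    have hvv : ((v.val : ℕ) : ZMod m) = ((v'.val : ℕ) : ZMod m) := by
      rw [hu] at hdm
      exact sub_right_injective hdm
    have ht := digit_sub u v u' v' (cst _ _ hu) (cst _ _ hvv) hd
    exact digits_inj u u' hu (b3 a _ _ _ _ hv'.2 ht)
  · intro a u v u' v' hv hd
    have hv' := Prod.ext_iff.mp hv
    have hdm : ((u.val : ℕ) : ZMod m) + ((v.val : ℕ) : ZMod m) =
        ((u'.val : ℕ) : ZMod m) + ((v'.val : ℕ) : ZMod m) := by
      rw [red, red, red, red, ← map_add, ← map_add, hd]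
    have hu := a4 a _ _ _ _ hv'.1 hdm
    have hvv : ((v.val : ℕ) : ZMod m) = ((v'.val : ℕ) : ZMod m) := by
      rw [hu] at hdm
      exact add_left_cancel hdm
    have ht := digit_add u v u' v' (cst _ _ hu) (cst _ _ hvv) hd
    exact digits_inj u u' hu (b4 a _ _ _ _ hv'.2 ht)
  · intro a b hab u v u' v' ha hb
    have ha' := Prod.ext_iff.mp ha
    have hb' := Prod.ext_iff.mp hb
    obtain ⟨c1, c2⟩ := a5 a b hab _ _ _ _ ha'.1 hb'.1
    obtain ⟨d1, d2⟩ := b5 a b hab _ _ _ _ ha'.2 hb'.2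
    exact ⟨digits_inj u u' c1 d1, digits_inj v v' c2 d2⟩

/-- The linear designs of prime order. -/
theorem KV.prime {p k : ℕ} (hp : p.Prime) (hk : k + 3 ≤ p) : KV p k := by
  have : Fact p.Prime := ⟨hp⟩
  have small : ∀ t : ℕ, 0 < t → t < p → ((t : ℕ) : ZMod p) ≠ 0 := by
    intro t h0 ht h
    rw [ZMod.natCast_eq_zero_iff] at h
    exact absurd (Nat.le_of_dvd h0 h) (by omega)
  have key : ∀ c w : ZMod p, c ≠ 0 → c * w = 0 → w = 0 := fun c w hc h =>
    (mul_eq_zero.mp h).resolve_left hc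
  refine ⟨ZMod p, inferInstance, ZMod.card p, fun a u v => v - ((a.val + 2 : ℕ) : ZMod p) * u,
    ?_, ?_, ?_, ?_, ?_⟩
  · intro a u v v' h
    exact sub_left_injective h
  · intro a u u' v h
    have h0 := small (a.val + 2) (by omega) (by omega)
    have : ((a.val + 2 : ℕ) : ZMod p) * (u - u') = 0 := by
      have h' := sub_right_injective h
      rw [mul_sub, sub_eq_zero]
      exact h'
    exact sub_eq_zero.mp (key _ _ h0 this)
  · intro a u v u' v' h hd
    have h0 := small (a.val + 1) (by omega) (by omega)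
    have : ((a.val + 1 : ℕ) : ZMod p) * (u - u') = 0 := by
      push_cast at h ⊢
      linear_combination (-1 : ZMod p) * h - hd
    exact sub_eq_zero.mp (key _ _ h0 this)
  · intro a u v u' v' h hd
    have h0 := small (a.val + 3) (by omega) (by omega)
    have : ((a.val + 3 : ℕ) : ZMod p) * (u - u') = 0 := by
      push_cast at h ⊢
      linear_combination (-1 : ZMod p) * h + hd
    exact sub_eq_zero.mp (key _ _ h0 this)
  · intro a b hab u v u' v' ha hb
    have h0 : ((a.val + 2 : ℕ) : ZMod p) - ((b.val + 2 : ℕ) : ZMod p) ≠ 0 := by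
      intro h
      rw [sub_eq_zero, ZMod.natCast_eq_natCast_iff] at h
      have h2 : (a.val + 2) % p = (b.val + 2) % p := h
      rw [Nat.mod_eq_of_lt (by omega), Nat.mod_eq_of_lt (by omega)] at h2
      exact hab (Fin.ext (by omega))
    have hu : u - u' = 0 := by
      apply key _ _ h0
      linear_combination (-1 : ZMod p) * ha + hb
    have hu' := sub_eq_zero.mp hu
    refine ⟨hu', ?_⟩
    rw [hu'] at ha
    exact sub_left_injective ha

theorem KV.one (k : ℕ) : KV 1 k := by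
  refine ⟨Unit, inferInstance, rfl, fun _ _ _ => (), ?_, ?_, ?_, ?_, ?_⟩
  · intro a u v v' _
    exact Subsingleton.elim _ _
  · intro a u u' v _
    exact Subsingleton.elim _ _
  · intro a u v u' v' _ _
    exact Subsingleton.elim _ _
  · intro a u v u' v' _ _
    exact Subsingleton.elim _ _
  · intro a b _ u v u' v' _ _
    exact ⟨Subsingleton.elim _ _, Subsingleton.elim _ _⟩

theorem KV.of_primes {k : ℕ} : ∀ n : ℕ, 0 < n → (∀ q, q.Prime → q ∣ n → k + 3 ≤ q) → KV n k := by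
  intro n
  induction n using Nat.recOnMul with
  | zero => intro h; exact absurd h (lt_irrefl 0)
  | one => intro _ _; exact KV.one k
  | prime p hp => intro _ h; exact KV.prime hp (h p hp dvd_rfl)
  | mul a b iha ihb =>
    intro hab h
    have ha : 0 < a := Nat.pos_of_mul_pos_right hab |> fun _ => Nat.pos_of_ne_zero (by
      rintro rfl; simp at hab)
    have hb : 0 < b := Nat.pos_of_ne_zero (by rintro rfl; simp at hab)
    exact KV.mul ha hb (iha ha fun q hq hd => h q hq (hd.mul_right b))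
      (ihb hb fun q hq hd => h q hq (hd.mul_left a))

theorem KV.pow {m k : ℕ} (hm : 0 < m) (h : KV m k) : ∀ e : ℕ, KV (m ^ e) k
  | 0 => by rw [pow_zero]; exact KV.one k
  | e + 1 => by
    rw [pow_succ]
    exact KV.mul (pow_pos hm e) hm (KV.pow hm h e) h

end Pool.Agent.KVP88
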