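import Pool.Agent.KVP88.Squares

/-!
# `2 p - 6` pairwise orthogonal Knut Vik designs of order `p ^ 3`
-/

namespace Pool.Agent.KVP88

variable {p : ℕ}

/-- First family of order `p ^ 3`. -/
def Xc (p : ℕ) (ν : ℕ) (X Y : ℤ) : ZMod p × ZMod p × ZMod p :=
  ((Y : ZMod p) - ν * (X : ZMod p), w1 p (X / p) (Y / p) + ν * w1 p X Y,
    w2 p (X / p) (Y / p) + ν * w2 p X Y)

/-- Second family of order `p ^ 3`. -/
def Yc (p : ℕ) (μ : ℕ) (X Y : ℤ) : ZMod p × ZMod p × ZMod p :=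
  (w1 p X Y + μ * (X : ZMod p), w2 p X Y + μ * (Y : ZMod p),
    w2 p (X / p) (Y / p) - μ * w1 p (X / p) (Y / p) - μ * (X : ZMod p) + μ ^ 2 * (Y : ZMod p))

theorem fin3 (hp : Nice p) {X Y X' Y' : ℤ} (oX : OnB (p * (p * p)) X) (oY : OnB (p * (p * p)) Y)
    (oX' : OnB (p * (p * p)) X') (oY' : OnB (p * (p * p)) Y') (hX : (X : ZMod p) = X')
    (hY : (Y : ZMod p) = Y') (h1 : w1 p X Y = w1 p X' Y') (h2 : w2 p X Y = w2 p X' Y')
    (h3 : w1 p (X / p) (Y / p) = w1 p (X' / p) (Y' / p))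
    (h4 : w2 p (X / p) (Y / p) = w2 p (X' / p) (Y' / p)) : X = X' ∧ Y = Y' := by
  have hX' := (emod_eq X X').mp hX
  have hY' := (emod_eq Y Y').mp hY
  obtain ⟨e1, e2⟩ := unw hp hX' hY' h1 h2
  have p0 := hp.prime.pos
  obtain ⟨g1, g2⟩ := fin2 hp (oX.div p0) (oY.div p0) (oX'.div p0) (oY'.div p0)
    ((emod_eq _ _).mpr e1) ((emod_eq _ _).mpr e2) h3 h4
  exact ⟨eq_of_digits hX' g1, eq_of_digits hY' g2⟩

theorem Xc_kv (hp : Nice p) {ν : ℕ} (h2 : 2 ≤ ν) (hν : ν + 2 ≤ p) :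
    IsKV (p * (p * p)) (Xc p ν) := by
  intro α β hD X Y X' Y' oX oY oX' oY' hL hd
  have hl := line_mod hd
  obtain ⟨l1, hL'⟩ := Prod.ext_iff.mp hL
  obtain ⟨l2, l3⟩ := Prod.ext_iff.mp hL'
  simp only [Xc] at l1 l2 l3
  obtain ⟨f1, f2⟩ := indep hp h2 hν hD l1 hl
  have e1 := (emod_eq X X').mp f1
  have e2 := (emod_eq Y Y').mp f2
  have pne : (p : ℤ) ≠ 0 := by exact_mod_cast hp.prime.ne_zero
  have hd' : (p : ℤ) * ((p * p : ℕ) : ℤ) ∣ α * X + β * Y - (α * X' + β * Y') := by exact_mod_cast hd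
  have hd2 := descent pne hd' e1 e2
  have hl2 := line_mod hd2
  have q1 := w1_sub e1 e2
  have q2 := w2_sub e1 e2
  obtain ⟨g1, g2⟩ := level hp hD hd2
    (by linear_combination (α : ZMod p) * l2 + (β : ZMod p) * l3 - ν * α * q1 - ν * β * q2 - 6 * ν * hl2)
  have g1' := (emod_eq _ _).mpr g1
  have g2' := (emod_eq _ _).mpr g2
  exact fin3 hp oX oY oX' oY' f1 f2 (by linear_combination q1 + 6 * g1')
    (by linear_combination q2 + 6 * g2') (by linear_combination l2 - ν * q1 - 6 * ν * g1')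
    (by linear_combination l3 - ν * q2 - 6 * ν * g2')

theorem Yc_kv (hp : Nice p) {μ : ℕ} (h2 : 2 ≤ μ) (hμ : μ + 2 ≤ p) :
    IsKV (p * (p * p)) (Yc p μ) := by
  intro α β hD X Y X' Y' oX oY oX' oY' hL hd
  have hl := line_mod hd
  obtain ⟨l1, hL'⟩ := Prod.ext_iff.mp hL
  obtain ⟨l2, l3⟩ := Prod.ext_iff.mp hL'
  simp only [Yc] at l1 l2 l3
  have : Fact p.Prime := ⟨hp.prime⟩
  have pne : (p : ℤ) ≠ 0 := by exact_mod_cast hp.prime.ne_zero
  have hd0 : ((p * p : ℕ) : ℤ) ∣ α * X + β * Y - (α * X' + β * Y') := by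
    refine Dvd.dvd.trans ?_ hd
    push_cast
    exact ⟨p, by ring⟩
  obtain ⟨e1, e2⟩ := level hp hD hd0
    (by linear_combination (α : ZMod p) * l1 + (β : ZMod p) * l2 - μ * hl)
  have f1 : (X : ZMod p) = X' := (emod_eq X X').mpr e1
  have f2 : (Y : ZMod p) = Y' := (emod_eq Y Y').mpr e2
  have k1 : w1 p X Y = w1 p X' Y' := by linear_combination l1 - μ * f1
  have k2 : w2 p X Y = w2 p X' Y' := by linear_combination l2 - μ * f2
  obtain ⟨g1, g2⟩ := unw hp e1 e2 k1 k2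
  have hd' : (p : ℤ) * ((p * p : ℕ) : ℤ) ∣ α * X + β * Y - (α * X' + β * Y') := by exact_mod_cast hd
  have hd2 := descent pne hd' e1 e2
  have hd2' : (p : ℤ) * (p : ℤ) ∣ α * (X / p) + β * (Y / p) - (α * (X' / p) + β * (Y' / p)) := by
    exact_mod_cast hd2
  have hd3 := descent pne hd2' g1 g2
  have hl3 := line_mod' hd3
  have hw : ((Y / p / p : ℤ) : ZMod p) - μ * ((X / p / p : ℤ) : ZMod p) =
      ((Y' / p / p : ℤ) : ZMod p) - μ * ((X' / p / p : ℤ) : ZMod p) := by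
    apply mul_left_cancel₀ (six_ne hp)
    have q1 := w1_sub g1 g2
    have q2 := w2_sub g1 g2
    linear_combination l3 + μ * q1 - q2 + μ * f1 - μ ^ 2 * f2
  obtain ⟨i1, i2⟩ := indep hp h2 hμ hD hw hl3
  have p0 := hp.prime.pos
  have a1 := (oX.div p0).div p0
  have a2 := (oY.div p0).div p0
  have a3 := (oX'.div p0).div p0
  have a4 := (oY'.div p0).div p0
  have j1 := eq_of_digits g1 (eq_of_emod_small ((emod_eq _ _).mp i1) a1.1 a1.2 a3.1 a3.2)
  have j2 := eq_of_digits g2 (eq_of_emod_small ((emod_eq _ _).mp i2) a2.1 a2.2 a4.1 a4.2)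
  exact ⟨eq_of_digits e1 j1, eq_of_digits e2 j2⟩

theorem Xc_orth (hp : Nice p) {μ ν : ℕ} (hμ : μ < p) (hν : ν < p) (hne : μ ≠ ν) :
    Orth (p * (p * p)) (Xc p μ) (Xc p ν) := by
  intro X Y X' Y' oX oY oX' oY' hL hM
  have : Fact p.Prime := ⟨hp.prime⟩
  obtain ⟨l1, hL'⟩ := Prod.ext_iff.mp hL
  obtain ⟨l2, l3⟩ := Prod.ext_iff.mp hL'
  obtain ⟨m1, hM'⟩ := Prod.ext_iff.mp hM
  obtain ⟨m2, m3⟩ := Prod.ext_iff.mp hM'
  simp only [Xc] at l1 l2 l3 m1 m2 m3
  obtain ⟨f1, f2⟩ := indep' hp hμ hν hne l1 m1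
  have hne' := natCast_ne_of_ne hμ hν hne
  have k1 : w1 p X Y = w1 p X' Y' := by
    apply mul_left_cancel₀ hne'
    linear_combination l2 - m2
  have k2 : w2 p X Y = w2 p X' Y' := by
    apply mul_left_cancel₀ hne'
    linear_combination l3 - m3
  exact fin3 hp oX oY oX' oY' f1 f2 k1 k2 (by linear_combination l2 - μ * k1)
    (by linear_combination l3 - μ * k2)

theorem Yc_orth (hp : Nice p) {μ ν : ℕ} (hμ : μ < p) (hν : ν < p) (hne : μ ≠ ν) :
    Orth (p * (p * p)) (Yc p μ) (Yc p ν) := by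
  intro X Y X' Y' oX oY oX' oY' hL hM
  have : Fact p.Prime := ⟨hp.prime⟩
  obtain ⟨l1, hL'⟩ := Prod.ext_iff.mp hL
  obtain ⟨l2, l3⟩ := Prod.ext_iff.mp hL'
  obtain ⟨m1, hM'⟩ := Prod.ext_iff.mp hM
  obtain ⟨m2, m3⟩ := Prod.ext_iff.mp hM'
  simp only [Yc] at l1 l2 l3 m1 m2 m3
  have hne' := natCast_ne_of_ne hμ hν hne
  have f1 : (X : ZMod p) = X' := by
    apply mul_left_cancel₀ hne'
    linear_combination l1 - m1
  have f2 : (Y : ZMod p) = Y' := by
    apply mul_left_cancel₀ hne'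
    linear_combination l2 - m2
  obtain ⟨g1, g2⟩ := indep' hp hμ hν hne (x := w1 p (X / p) (Y / p)) (y := w2 p (X / p) (Y / p))
    (x' := w1 p (X' / p) (Y' / p)) (y' := w2 p (X' / p) (Y' / p))
    (by linear_combination l3 + μ * f1 - μ ^ 2 * f2) (by linear_combination m3 + ν * f1 - ν ^ 2 * f2)
  exact fin3 hp oX oY oX' oY' f1 f2 (by linear_combination l1 - μ * f1)
    (by linear_combination l2 - μ * f2) g1 g2

theorem XYc_orth (hp : Nice p) {μ ν : ℕ} (h2 : 2 ≤ ν) (hν : ν + 2 ≤ p) (h2' : 2 ≤ μ)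
    (hμ : μ + 2 ≤ p) : Orth (p * (p * p)) (Xc p ν) (Yc p μ) := by
  intro X Y X' Y' oX oY oX' oY' hL hM
  have : Fact p.Prime := ⟨hp.prime⟩
  obtain ⟨l1, hL'⟩ := Prod.ext_iff.mp hL
  obtain ⟨l2, l3⟩ := Prod.ext_iff.mp hL'
  obtain ⟨m1, hM'⟩ := Prod.ext_iff.mp hM
  obtain ⟨m2, m3⟩ := Prod.ext_iff.mp hM'
  simp only [Xc] at l1 l2 l3
  simp only [Yc] at m1 m2 m3
  have n1 := natCast_ne (p := p) (a := μ) (by omega) (by omega)
  have n2 := natCast_ne_of_ne (p := p) (a := ν) (b := 1) (by omega) (by omega) (by omega)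
  have n3 := natCast_ne (p := p) (a := ν + 1) (by omega) (by omega)
  have n4 : (μ : ZMod p) * (((ν : ZMod p) - ((1 : ℕ) : ZMod p)) * ((ν + 1 : ℕ) : ZMod p)) ≠ 0 :=
    mul_ne_zero n1 (mul_ne_zero n2 n3)
  have f1 : (X : ZMod p) = X' := by
    apply mul_left_cancel₀ n4
    push_cast
    linear_combination m3 - l3 + μ * l2 + ν * m2 - μ * ν * m1 - μ * (μ + ν) * l1
  have f2 : (Y : ZMod p) = Y' := by linear_combination l1 + ν * f1
  have k1 : w1 p X Y = w1 p X' Y' := by linear_combination m1 - μ * f1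
  have k2 : w2 p X Y = w2 p X' Y' := by linear_combination m2 - μ * f2
  exact fin3 hp oX oY oX' oY' f1 f2 k1 k2 (by linear_combination l2 - ν * k1)
    (by linear_combination l3 - ν * k2)

/-- The `2 p - 6` designs of order `p ^ 3`. -/
def D3 (p : ℕ) (i : ℕ) : ℤ → ℤ → ZMod p × ZMod p × ZMod p :=
  if i + 3 < p then Xc p (i + 2) else Yc p (i + 3 - p + 2)

theorem KV.cube (hp : Nice p) {k : ℕ} (hk : k + 6 ≤ 2 * p) : KV (p * (p * p)) k := by
  have : Fact p.Prime := ⟨hp.prime⟩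
  have : NeZero (p * (p * p)) :=
    ⟨mul_ne_zero hp.prime.ne_zero (mul_ne_zero hp.prime.ne_zero hp.prime.ne_zero)⟩
  refine KV.of (S := ZMod p × ZMod p × ZMod p)
    (by rw [Fintype.card_prod, Fintype.card_prod, ZMod.card]) (fun i : Fin k => D3 p i) ?_ ?_
  · intro i
    have hi := i.isLt
    show IsKV (p * (p * p)) (D3 p i)
    unfold D3
    split_ifs with h
    · exact Xc_kv hp (by omega) (by omega)
    · exact Yc_kv hp (by omega) (by omega)
  · intro i j hij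
    have hi := i.isLt
    have hj := j.isLt
    have hij' : i.val ≠ j.val := fun h => hij (Fin.ext h)
    show Orth (p * (p * p)) (D3 p i) (D3 p j)
    unfold D3
    split_ifs with h1 h2 h2
    · exact Xc_orth hp (by omega) (by omega) (by omega)
    · exact XYc_orth hp (by omega) (by omega) (by omega) (by omega)
    · exact (XYc_orth hp (by omega) (by omega) (by omega) (by omega)).symm
    · exact Yc_orth hp (by omega) (by omega) (by omega)

end Pool.Agent.KVP88
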