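import Mathlib

/-!
An explicit solution of the toroidal `p^2`-queens problem with one queen in every pair of residue
classes modulo `p` (`p` coprime to 6): the queens are `(a + p u, b + p v)` with `6 u = U`,
`6 v = V` modulo `p`.
-/

namespace Pool.Agent.KVP88

/-- Six times the second digit of the first coordinate. -/
def U (a b : ℤ) : ℤ := if b = 0 then 2 * a + 2 else if a < b then 2 * b + 2 else 2 * b

/-- Six times the second digit of the second coordinate. -/
def V (p a b : ℤ) : ℤ :=
  if b = 0 then 3 * a + 2
  else if a + b = p then (if p < 2 * b then 4 * b - 4 else 4 * b - 2)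
  else if a + b = p - 1 then (if p < 2 * b then 4 * b - 3 else 4 * b - 1)
  else if a < b then (if p ≤ a + b then 3 * b + a - 4 else 3 * b + a - 2)
  else (if p ≤ a + b then 3 * b + a - 2 else 3 * b + a)

theorem dvd_cases {p y : ℤ} (hp : 0 < p) (h : p ∣ y) (h1 : -(3 * p) < y) (h2 : y < 3 * p) :
    y = 0 ∨ y = p ∨ y = -p ∨ y = 2 * p ∨ y = -(2 * p) := by
  obtain ⟨k, rfl⟩ := h
  have k1 : -3 < k := by
    by_contra hk
    have : k ≤ -3 := by omega
    nlinarith
  have k2 : k < 3 := by
    by_contra hk
    have : 3 ≤ k := by omega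
    nlinarith
  have : k = 0 ∨ k = 1 ∨ k = -1 ∨ k = 2 ∨ k = -2 := by omega
  rcases this with rfl | rfl | rfl | rfl | rfl <;> simp <;> omega

theorem col {p a b b' : ℤ} (hp : 5 ≤ p) (h2 : IsCoprime p 2) (ha : 0 ≤ a) (ha' : a < p)
    (hb : 0 ≤ b) (hb' : b < p) (hc : 0 ≤ b') (hc' : b' < p) (h : p ∣ U a b - U a b') : b = b' := by
  have key : ∀ y : ℤ, U a b - U a b' = 2 * y → -(3 * p) < y → y < 3 * p →
      y = 0 ∨ y = p ∨ y = -p ∨ y = 2 * p ∨ y = -(2 * p) := by
    intro y hy h1 h2'
    rw [hy] at h
    exact dvd_cases (by omega) (h2.dvd_of_dvd_mul_left h) h1 h2'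
  unfold U at key
  split_ifs at key with c1 c2 c3 c4 c5 c6 c7 c8
  all_goals first
    | omega
    | (have := key (a - a) (by omega) (by omega) (by omega); omega)
    | (have := key (a + 1 - b' - 1) (by omega) (by omega) (by omega); omega)
    | (have := key (a + 1 - b') (by omega) (by omega) (by omega); omega)
    | (have := key (b + 1 - a - 1) (by omega) (by omega) (by omega); omega)
    | (have := key (b - a - 1) (by omega) (by omega) (by omega); omega)
    | (have := key (b - b') (by omega) (by omega) (by omega); omega)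
    | (have := key (b + 1 - b') (by omega) (by omega) (by omega); omega)
    | (have := key (b - b' - 1) (by omega) (by omega) (by omega); omega)

end Pool.Agent.KVP88
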