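import Pool.Agent.KVP88.Queens

namespace Pool.Agent.KVP88

theorem eq_of_window {p x y c : ℤ} (hp : 0 < p) (h : p ∣ x - y) (h1 : c ≤ x) (h2 : x < c + p)
    (h3 : c ≤ y) (h4 : y < c + p) : x = y := by
  obtain ⟨k, hk⟩ := h
  have k1 : -1 < k := by
    by_contra hk'
    have : k ≤ -1 := by omega
    nlinarith
  have k2 : k < 1 := by
    by_contra hk'
    have : 1 ≤ k := by omega
    nlinarith
  have : k = 0 := by omega
  subst this
  linarith

/-- `V - 3 b` in the row `b ≥ 1`. -/
def R (p a b : ℤ) : ℤ :=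
  if a + b = p then (if p < 2 * b then b - 4 else b - 2)
  else if a + b = p - 1 then (if p < 2 * b then b - 3 else b - 1)
  else if a < b then (if p ≤ a + b then a - 4 else a - 2)
  else (if p ≤ a + b then a - 2 else a)

theorem V_eq_R {p a b : ℤ} (hb : 0 < b) : V p a b = 3 * b + R p a b := by
  unfold V R
  rw [if_neg (by omega)]
  split_ifs <;> omega

theorem R_bd {p a b : ℤ} (hp : 5 ≤ p) (h2 : p % 2 = 1) (ha : 0 ≤ a) (ha' : a < p)
    (hb : 0 < b) (hb' : b < p) : -2 ≤ R p a b ∧ R p a b < -2 + p := by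
  unfold R
  split_ifs <;> omega

theorem R_inj {p a a' b : ℤ} (hp : 5 ≤ p) (h2 : p % 2 = 1) (ha : 0 ≤ a) (ha' : a < p)
    (hb : 0 < b) (hb' : b < p) (hc : 0 ≤ a') (hc' : a' < p) (h : R p a b = R p a' b) :
    a = a' := by
  unfold R at h
  by_cases c0 : p < 2 * b
  · simp only [if_pos c0] at h
    split_ifs at h <;> omega
  · simp only [if_neg c0] at h
    split_ifs at h <;> omega

theorem row {p a a' b : ℤ} (hp : 5 ≤ p) (h2 : p % 2 = 1) (h3 : IsCoprime p 3) (ha : 0 ≤ a)
    (ha' : a < p) (hb : 0 ≤ b) (hb' : b < p) (hc : 0 ≤ a') (hc' : a' < p)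
    (h : p ∣ V p a b - V p a' b) : a = a' := by
  rcases eq_or_lt_of_le hb with h0 | h0
  · subst h0
    have : p ∣ 3 * (a - a') := by
      have e : V p a 0 - V p a' 0 = 3 * (a - a') := by
        unfold V
        rw [if_pos rfl, if_pos rfl]; ring
      rwa [e] at h
    exact eq_of_window (c := 0) (by omega) (h3.dvd_of_dvd_mul_left this) ha (by omega) hc (by omega)
  · rw [V_eq_R h0, V_eq_R h0] at h
    have h' : p ∣ R p a b - R p a' b := by
      have e : 3 * b + R p a b - (3 * b + R p a' b) = R p a b - R p a' b := by ring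
      rwa [e] at h
    have b1 := R_bd hp h2 ha ha' h0 hb'
    have b2 := R_bd hp h2 hc hc' h0 hb'
    exact R_inj hp h2 ha ha' h0 hb' hc hc' (eq_of_window (by omega) h' b1.1 b1.2 b2.1 b2.2)

/-- The position on a diagonal. -/
def Y (p a b : ℤ) : ℤ :=
  if a + b = p then (if a < b then 0 else -1)
  else if a + b = p - 1 then (if a < b then 0 else -1)
  else if a < b then (if p ≤ a + b then a else a + 1)
  else (if p ≤ a + b then a - 1 else a)

theorem Y_eq {p a b : ℤ} (hp : 5 ≤ p) (h2 : p % 2 = 1) (ha : 0 ≤ a) (ha' : a < p)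
    (hb : 0 ≤ b) (hb' : b < p) : ∃ t : ℤ, U a b - V p a b - (a - b) =
      -2 * Y p a b + (if a < b then 6 else 0) - p * t := by
  rcases eq_or_lt_of_le hb with h0 | h0
  · subst h0
    by_cases c : a = p - 1
    · refine ⟨2, ?_⟩
      unfold U V Y
      split_ifs <;> omega
    · refine ⟨0, ?_⟩
      unfold U V Y
      split_ifs <;> omega
  · have hb0 : ¬ b = 0 := by omega
    unfold U V Y
    by_cases c1 : a + b = p
    · refine ⟨1, ?_⟩
      simp only [if_neg hb0, if_pos c1]
      split_ifs <;> omega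
    · by_cases c2 : a + b = p - 1
      · refine ⟨1, ?_⟩
        simp only [if_neg hb0, if_neg c1, if_pos c2]
        split_ifs <;> omega
      · refine ⟨0, ?_⟩
        simp only [if_neg hb0, if_neg c1, if_neg c2]
        split_ifs <;> omega

theorem Y_bd {p a b : ℤ} (hp : 5 ≤ p) (ha : 0 ≤ a) (ha' : a < p)
    (hb : 0 ≤ b) (hb' : b < p) : -1 ≤ Y p a b ∧ Y p a b < -1 + p := by
  unfold Y
  split_ifs <;> omega

theorem Y_inj {p a b a' b' : ℤ} (hp : 5 ≤ p) (h2 : p % 2 = 1) (ha : 0 ≤ a) (ha' : a < p)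
    (hb : 0 ≤ b) (hb' : b < p) (hc : 0 ≤ a') (hc' : a' < p) (hd : 0 ≤ b') (hd' : b' < p)
    (hK : a - b = a' - b' ∨ a - b = a' - b' + p ∨ a - b = a' - b' - p)
    (h : Y p a b = Y p a' b') : a = a' := by
  unfold Y at h
  rcases hK with hK | hK | hK
  · split_ifs at h <;> omega
  · split_ifs at h <;> omega
  · split_ifs at h <;> omega

theorem diag {p a b a' b' ε : ℤ} (hp : 5 ≤ p) (h2 : p % 2 = 1) (h2' : IsCoprime p 2)
    (ha : 0 ≤ a) (ha' : a < p)
    (hb : 0 ≤ b) (hb' : b < p) (hc : 0 ≤ a') (hc' : a' < p) (hd : 0 ≤ b') (hd' : b' < p)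
    (hK : a - b - (a' - b') = p * ε)
    (h : p ∣ (U a b - V p a b) - (U a' b' - V p a' b') + 6 * ε) : a = a' ∧ b = b' := by
  have e1 : -2 < ε := by
    by_contra hk'
    have : ε ≤ -2 := by omega
    nlinarith
  have e2 : ε < 2 := by
    by_contra hk'
    have : 2 ≤ ε := by omega
    nlinarith
  have hε : ε = 0 ∨ ε = 1 ∨ ε = -1 := by omega
  obtain ⟨t, ht⟩ := Y_eq hp h2 ha ha' hb hb'
  obtain ⟨t', ht'⟩ := Y_eq hp h2 hc hc' hd hd'
  have b1 := Y_bd hp ha ha' hb hb'
  have b2 := Y_bd hp hc hc' hd hd'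
  have hs : (if a < b then (6:ℤ) else 0) - (if a' < b' then 6 else 0) + 6 * ε = 0 := by
    rcases hε with rfl | rfl | rfl <;> split_ifs <;> omega
  have hY : p ∣ 2 * (Y p a b - Y p a' b') := by
    have e : (U a b - V p a b) - (U a' b' - V p a' b') + 6 * ε =
        -(2 * (Y p a b - Y p a' b')) + p * (ε - t + t') := by
      linear_combination ht - ht' + hs + hK
    rw [e] at h
    have := (dvd_add_left (Dvd.intro _ rfl)).mp h
    exact (dvd_neg.mp this)
  have hYY := eq_of_window (by omega) (h2'.dvd_of_dvd_mul_left hY) b1.1 b1.2 b2.1 b2.2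
  have : a = a' := by
    apply Y_inj hp h2 ha ha' hb hb' hc hc' hd hd' _ hYY
    rcases hε with rfl | rfl | rfl <;> omega
  refine ⟨this, ?_⟩
  subst this
  rcases hε with rfl | rfl | rfl <;> omega

theorem anti {p a b a' b' ε : ℤ} (hp : 5 ≤ p) (hodd : p % 2 = 1) (h2' : IsCoprime p 2) (h3' : IsCoprime p 3)
    (ha : 0 ≤ a) (ha' : a < p)
    (hb : 0 ≤ b) (hb' : b < p) (hc : 0 ≤ a') (hc' : a' < p) (hd : 0 ≤ b') (hd' : b' < p)
    (hK : a + b - (a' + b') = p * ε)
    (h : p ∣ (U a b + V p a b) - (U a' b' + V p a' b') + 6 * ε) : a = a' ∧ b = b' := by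
  have e1 : -2 < ε := by
    by_contra hk'
    have : ε ≤ -2 := by omega
    nlinarith
  have e2 : ε < 2 := by
    by_contra hk'
    have : 2 ≤ ε := by omega
    nlinarith
  have hε : ε = 0 ∨ ε = 1 ∨ ε = -1 := by omega
  have hs : (if p ≤ a + b then (6:ℤ) else 0) - (if p ≤ a' + b' then 6 else 0) = 6 * ε := by
    rcases hε with rfl | rfl | rfl <;> split_ifs <;> omega
  -- lines `a + b ≡ 0`
  have L0 : ∀ x y : ℤ, 0 ≤ x → x < p → 0 ≤ y → y < p → (x + y = 0 ∨ x + y = p) →
      U x y + V p x y + (if p ≤ x + y then 6 else 0) = 6 * y + 4 := by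
    intro x y hx hx' hy hy' hxy
    unfold U V
    rcases hxy with hxy | hxy
    · have hy0 : y = 0 := by omega
      have hx0 : ¬ p ≤ x + y := by omega
      simp only [if_pos hy0, if_neg hx0]; omega
    · have hy0 : ¬ y = 0 := by omega
      simp only [if_neg hy0, if_pos hxy]
      split_ifs <;> omega
  have L1 : ∀ x y : ℤ, 0 ≤ x → x < p → 0 ≤ y → y < p → x + y = p - 1 →
      ∃ t : ℤ, U x y + V p x y + (if p ≤ x + y then 6 else 0) = 6 * y - 1 + p * t := by
    intro x y hx hx' hy hy' hxy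
    unfold U V
    by_cases c : y = 0
    · have hx0 : ¬ p ≤ x + y := by omega
      exact ⟨5, by simp only [if_pos c, if_neg hx0]; omega⟩
    · refine ⟨0, ?_⟩
      have hx1 : ¬ x + y = p := by omega
      simp only [if_neg c, if_neg hx1, if_pos hxy]
      split_ifs <;> omega
  have L2 : ∀ x y : ℤ, 0 ≤ x → x < p → 0 ≤ y → y < p → x + y ≠ p - 1 → x + y ≠ p →
      U x y + V p x y + (if p ≤ x + y then 6 else 0) =
        5 * (x + y) - 4 * (if y = 0 then -1 else if p ≤ x + y then x - 1 else x) := by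
    intro x y hx hx' hy hy' h1 h2
    unfold U V
    by_cases c : y = 0
    · have hx0 : ¬ p ≤ x + y := by omega
      simp only [if_pos c, if_neg hx0]; omega
    · simp only [if_neg c, if_neg h2, if_neg h1]
      split_ifs <;> omega
  have hE : (U a b + V p a b) - (U a' b' + V p a' b') + 6 * ε =
      (U a b + V p a b + (if p ≤ a + b then 6 else 0)) -
      (U a' b' + V p a' b' + (if p ≤ a' + b' then 6 else 0)) := by
    linarith
  rw [hE] at h
  by_cases c0 : a + b = 0 ∨ a + b = p
  · have c0' : a' + b' = 0 ∨ a' + b' = p := by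
      rcases hε with rfl | rfl | rfl <;> omega
    rw [L0 a b ha ha' hb hb' c0, L0 a' b' hc hc' hd hd' c0'] at h
    have h' : p ∣ 2 * (3 * (b - b')) := by
      have e : 6 * b + 4 - (6 * b' + 4) = 2 * (3 * (b - b')) := by ring
      rwa [e] at h
    have := eq_of_window (c := 0) (by omega)
      (h3'.dvd_of_dvd_mul_left (h2'.dvd_of_dvd_mul_left h')) hb (by omega) hd (by omega)
    rcases hε with rfl | rfl | rfl <;> omega
  · by_cases c1 : a + b = p - 1
    · have c1' : a' + b' = p - 1 := by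
        rcases hε with rfl | rfl | rfl <;> omega
      obtain ⟨t, ht⟩ := L1 a b ha ha' hb hb' c1
      obtain ⟨t', ht'⟩ := L1 a' b' hc hc' hd hd' c1'
      rw [ht, ht'] at h
      have h' : p ∣ 2 * (3 * (b - b')) := by
        have e : 6 * b - 1 + p * t - (6 * b' - 1 + p * t') =
            2 * (3 * (b - b')) + p * (t - t') := by ring
        rw [e] at h
        exact (dvd_add_left (Dvd.intro _ rfl)).mp h
      have := eq_of_window (c := 0) (by omega)
        (h3'.dvd_of_dvd_mul_left (h2'.dvd_of_dvd_mul_left h')) hb (by omega) hd (by omega)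
      rcases hε with rfl | rfl | rfl <;> omega
    · have c2 : a' + b' ≠ p - 1 := by
        rcases hε with rfl | rfl | rfl <;> omega
      have c3 : a' + b' ≠ p := by
        rcases hε with rfl | rfl | rfl <;> omega
      have c4 : a + b ≠ p := by omega
      rw [L2 a b ha ha' hb hb' c1 c4, L2 a' b' hc hc' hd hd' c2 c3] at h
      generalize hx : (if b = 0 then (-1:ℤ) else if p ≤ a + b then a - 1 else a) = x at h
      generalize hy : (if b' = 0 then (-1:ℤ) else if p ≤ a' + b' then a' - 1 else a') = y at h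
      have h' : p ∣ 2 * (2 * (x - y)) := by
        have e : 5 * (a + b) - 4 * x - (5 * (a' + b') - 4 * y) =
            -(2 * (2 * (x - y))) + p * (5 * ε) := by
          linear_combination 5 * hK
        rw [e] at h
        exact dvd_neg.mp ((dvd_add_left (Dvd.intro _ rfl)).mp h)
      have x1 : -1 ≤ x ∧ x < -1 + p := by
        rw [← hx]; split_ifs <;> omega
      have y1 : -1 ≤ y ∧ y < -1 + p := by
        rw [← hy]; split_ifs <;> omega
      have hxy := eq_of_window (by omega)
        (h2'.dvd_of_dvd_mul_left (h2'.dvd_of_dvd_mul_left h')) x1.1 x1.2 y1.1 y1.2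
      rw [← hx, ← hy] at hxy
      rcases hε with rfl | rfl | rfl <;> split_ifs at hxy <;> omega

end Pool.Agent.KVP88
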