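import Pool.Agent.KVP88.Tower

/-!
# `2 p - 3` pairwise orthogonal Knut Vik designs of order `p ^ 2`
-/

namespace Pool.Agent.KVP88

variable {p : ℕ}

theorem Orth.symm {n : ℕ} {S : Type} {L M : ℤ → ℤ → S} (h : Orth n L M) : Orth n M L :=
  fun X Y X' Y' h1 h2 h3 h4 h5 h6 => h X Y X' Y' h1 h2 h3 h4 h6 h5

theorem natCast_ne {p a : ℕ} (h0 : 0 < a) (h1 : a < p) : ((a : ℕ) : ZMod p) ≠ 0 := by
  rw [Ne, ZMod.natCast_eq_zero_iff]
  intro h
  have := Nat.le_of_dvd h0 h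
  omega

theorem natCast_ne_of_ne {p a b : ℕ} (ha : a < p) (hb : b < p) (hab : a ≠ b) :
    ((a : ℕ) : ZMod p) - ((b : ℕ) : ZMod p) ≠ 0 := by
  intro h
  rw [sub_eq_zero, ZMod.natCast_eq_natCast_iff] at h
  have h2 : a % p = b % p := h
  rw [Nat.mod_eq_of_lt ha, Nat.mod_eq_of_lt hb] at h2
  exact hab h2

theorem indep (hp : Nice p) {μ : ℕ} (h2 : 2 ≤ μ) (hμ : μ + 2 ≤ p) {α β : ℤ} (hD : Dir α β)
    {x y x' y' : ZMod p} (hc : y - μ * x = y' - μ * x')
    (hd : (α : ZMod p) * x + β * y = α * x' + β * y') : x = x' ∧ y = y' := by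
  have : Fact p.Prime := ⟨hp.prime⟩
  have key : ((α : ZMod p) + β * μ) * (x - x') = 0 := by
    linear_combination hd - β * hc
  have hne : (α : ZMod p) + β * μ ≠ 0 := by
    rcases hD with ⟨rfl, rfl⟩ | ⟨rfl, rfl⟩ | ⟨rfl, rfl⟩ | ⟨rfl, rfl⟩
    · simp
    · have := natCast_ne (p := p) (a := μ) (by omega) (by omega)
      push_cast
      rw [zero_add, one_mul]
      exact this
    · have h := natCast_ne_of_ne (p := p) (a := 1) (b := μ) (by omega) (by omega) (by omega)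
      intro h0
      apply h
      push_cast at h0 ⊢
      linear_combination h0
    · have h := natCast_ne (p := p) (a := μ + 1) (by omega) (by omega)
      intro h0
      apply h
      push_cast at h0 ⊢
      linear_combination h0
  have hx : x - x' = 0 := (mul_eq_zero.mp key).resolve_left hne
  have hx' : x = x' := sub_eq_zero.mp hx
  refine ⟨hx', ?_⟩
  rw [hx'] at hc
  exact sub_left_injective hc

theorem indep' (hp : Nice p) {μ ν : ℕ} (hμ : μ < p) (hν : ν < p) (hne : μ ≠ ν)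
    {x y x' y' : ZMod p} (hc : y - μ * x = y' - μ * x') (hd : y - ν * x = y' - ν * x') :
    x = x' ∧ y = y' := by
  have : Fact p.Prime := ⟨hp.prime⟩
  have key : ((μ : ZMod p) - ν) * (x - x') = 0 := by
    linear_combination hd - hc
  have hx : x - x' = 0 := (mul_eq_zero.mp key).resolve_left (natCast_ne_of_ne hμ hν hne)
  have hx' : x = x' := sub_eq_zero.mp hx
  refine ⟨hx', ?_⟩
  rw [hx'] at hc
  exact sub_left_injective hc

/-- Same line modulo `p`. -/
theorem line_mod {m : ℕ} {α β X Y X' Y' : ℤ}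
    (h : ((p * m : ℕ) : ℤ) ∣ α * X + β * Y - (α * X' + β * Y')) :
    (α : ZMod p) * (X : ZMod p) + β * (Y : ZMod p) = α * (X' : ZMod p) + β * (Y' : ZMod p) := by
  have h1 : (p : ℤ) ∣ α * X + β * Y - (α * X' + β * Y') := by
    refine Dvd.dvd.trans ?_ h
    push_cast
    exact dvd_mul_right _ _
  rw [← ZMod.intCast_eq_intCast_iff_dvd_sub] at h1
  simpa only [Int.cast_add, Int.cast_mul] using h1.symm

theorem line_mod' {α β X Y X' Y' : ℤ} (h : (p : ℤ) ∣ α * X + β * Y - (α * X' + β * Y')) :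
    (α : ZMod p) * (X : ZMod p) + β * (Y : ZMod p) = α * (X' : ZMod p) + β * (Y' : ZMod p) := by
  rw [← ZMod.intCast_eq_intCast_iff_dvd_sub] at h
  simpa only [Int.cast_add, Int.cast_mul] using h.symm

theorem six_ne (hp : Nice p) : (6 : ZMod p) ≠ 0 := by
  have : Fact p.Prime := ⟨hp.prime⟩
  have h2 := natCast_ne (p := p) (a := 2) (by norm_num) (by have := hp.five; omega)
  have h3 := natCast_ne (p := p) (a := 3) (by norm_num) (by have := hp.five; omega)
  have : (6 : ZMod p) = ((2 : ℕ) : ZMod p) * ((3 : ℕ) : ZMod p) := by push_cast; norm_num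
  rw [this]
  exact mul_ne_zero h2 h3

theorem w1_sub {X Y X' Y' : ℤ} (hX : X % p = X' % p) (hY : Y % p = Y' % p) :
    w1 p X Y - w1 p X' Y' = 6 * (((X / p : ℤ) : ZMod p) - ((X' / p : ℤ) : ZMod p)) := by
  unfold w1
  rw [hX, hY]
  simp only [Int.cast_sub, Int.cast_mul, Int.cast_ofNat]
  ring

theorem w2_sub {X Y X' Y' : ℤ} (hX : X % p = X' % p) (hY : Y % p = Y' % p) :
    w2 p X Y - w2 p X' Y' = 6 * (((Y / p : ℤ) : ZMod p) - ((Y' / p : ℤ) : ZMod p)) := by
  unfold w2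
  rw [hX, hY]
  simp only [Int.cast_sub, Int.cast_mul, Int.cast_ofNat]
  ring

/-- First family. -/
def Xd (p : ℕ) (s : ℕ) (X Y : ℤ) : ZMod p × ZMod p :=
  (w1 p X Y + s * (X : ZMod p), w2 p X Y + s * (Y : ZMod p))

/-- Second family. -/
def Yd (p : ℕ) (μ : ℕ) (X Y : ℤ) : ZMod p × ZMod p :=
  ((Y : ZMod p) - μ * (X : ZMod p), w2 p X Y - μ * w1 p X Y + (X : ZMod p))

theorem fin2 (hp : Nice p) {X Y X' Y' : ℤ} (oX : OnB (p * p) X) (oY : OnB (p * p) Y)
    (oX' : OnB (p * p) X') (oY' : OnB (p * p) Y') (hX : (X : ZMod p) = X') (hY : (Y : ZMod p) = Y')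
    (h1 : w1 p X Y = w1 p X' Y') (h2 : w2 p X Y = w2 p X' Y') : X = X' ∧ Y = Y' := by
  have hX' := (emod_eq X X').mp hX
  have hY' := (emod_eq Y Y').mp hY
  obtain ⟨e1, e2⟩ := unw hp hX' hY' h1 h2
  have p0 := hp.prime.pos
  have a1 := oX.div p0
  have a2 := oY.div p0
  have a3 := oX'.div p0
  have a4 := oY'.div p0
  exact ⟨eq_of_digits hX' (eq_of_emod_small e1 a1.1 a1.2 a3.1 a3.2),
    eq_of_digits hY' (eq_of_emod_small e2 a2.1 a2.2 a4.1 a4.2)⟩

theorem Xd_kv (hp : Nice p) (s : ℕ) : IsKV (p * p) (Xd p s) := by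
  intro α β hD X Y X' Y' oX oY oX' oY' hL hd
  have hl := line_mod hd
  obtain ⟨l1, l2⟩ := Prod.ext_iff.mp hL
  simp only [Xd] at l1 l2
  obtain ⟨e1, e2⟩ := level hp hD hd (by linear_combination (α : ZMod p) * l1 + (β : ZMod p) * l2 - s * hl)
  have f1 : (X : ZMod p) = X' := (emod_eq X X').mpr e1
  have f2 : (Y : ZMod p) = Y' := (emod_eq Y Y').mpr e2
  exact fin2 hp oX oY oX' oY' f1 f2 (by linear_combination l1 - s * f1) (by linear_combination l2 - s * f2)

theorem Yd_kv (hp : Nice p) {μ : ℕ} (h2 : 2 ≤ μ) (hμ : μ + 2 ≤ p) : IsKV (p * p) (Yd p μ) := by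
  intro α β hD X Y X' Y' oX oY oX' oY' hL hd
  have hl := line_mod hd
  obtain ⟨l1, l2⟩ := Prod.ext_iff.mp hL
  simp only [Yd] at l1 l2
  obtain ⟨f1, f2⟩ := indep hp h2 hμ hD l1 hl
  have e1 := (emod_eq X X').mp f1
  have e2 := (emod_eq Y Y').mp f2
  have pne : (p : ℤ) ≠ 0 := by exact_mod_cast hp.prime.ne_zero
  have hd' : (p : ℤ) * p ∣ α * X + β * Y - (α * X' + β * Y') := by exact_mod_cast hd
  have hd2 := descent pne hd' e1 e2
  have hl2 := line_mod' hd2
  have hw : ((Y / p : ℤ) : ZMod p) - μ * ((X / p : ℤ) : ZMod p) =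
      ((Y' / p : ℤ) : ZMod p) - μ * ((X' / p : ℤ) : ZMod p) := by
    have := hp.prime
    have : Fact p.Prime := ⟨hp.prime⟩
    apply mul_left_cancel₀ (six_ne hp)
    have q1 := w1_sub e1 e2
    have q2 := w2_sub e1 e2
    linear_combination l2 + μ * q1 - q2 - f1
  obtain ⟨g1, g2⟩ := indep hp h2 hμ hD hw hl2
  have p0 := hp.prime.pos
  have a1 := oX.div p0
  have a2 := oY.div p0
  have a3 := oX'.div p0
  have a4 := oY'.div p0
  exact ⟨eq_of_digits e1 (eq_of_emod_small ((emod_eq _ _).mp g1) a1.1 a1.2 a3.1 a3.2),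
    eq_of_digits e2 (eq_of_emod_small ((emod_eq _ _).mp g2) a2.1 a2.2 a4.1 a4.2)⟩

theorem Xd_orth (hp : Nice p) {s t : ℕ} (hs : s < p) (ht : t < p) (hst : s ≠ t) :
    Orth (p * p) (Xd p s) (Xd p t) := by
  intro X Y X' Y' oX oY oX' oY' hL hM
  have : Fact p.Prime := ⟨hp.prime⟩
  obtain ⟨l1, l2⟩ := Prod.ext_iff.mp hL
  obtain ⟨m1, m2⟩ := Prod.ext_iff.mp hM
  simp only [Xd] at l1 l2 m1 m2
  have hne := natCast_ne_of_ne hs ht hst
  have f1 : (X : ZMod p) = X' := by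
    apply mul_left_cancel₀ hne
    linear_combination l1 - m1
  have f2 : (Y : ZMod p) = Y' := by
    apply mul_left_cancel₀ hne
    linear_combination l2 - m2
  exact fin2 hp oX oY oX' oY' f1 f2 (by linear_combination l1 - s * f1) (by linear_combination l2 - s * f2)

theorem Yd_orth (hp : Nice p) {μ ν : ℕ} (hμ : μ < p) (hν : ν < p) (hne : μ ≠ ν) :
    Orth (p * p) (Yd p μ) (Yd p ν) := by
  intro X Y X' Y' oX oY oX' oY' hL hM
  obtain ⟨l1, l2⟩ := Prod.ext_iff.mp hL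
  obtain ⟨m1, m2⟩ := Prod.ext_iff.mp hM
  simp only [Yd] at l1 l2 m1 m2
  obtain ⟨f1, f2⟩ := indep' hp hμ hν hne l1 m1
  have l2' : w2 p X Y - μ * w1 p X Y = w2 p X' Y' - μ * w1 p X' Y' := by
    linear_combination l2 - f1
  have m2' : w2 p X Y - ν * w1 p X Y = w2 p X' Y' - ν * w1 p X' Y' := by
    linear_combination m2 - f1
  obtain ⟨g1, g2⟩ := indep' hp hμ hν hne l2' m2'
  exact fin2 hp oX oY oX' oY' f1 f2 g1 g2

theorem XY_orth (hp : Nice p) (s μ : ℕ) : Orth (p * p) (Xd p s) (Yd p μ) := by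
  intro X Y X' Y' oX oY oX' oY' hL hM
  obtain ⟨l1, l2⟩ := Prod.ext_iff.mp hL
  obtain ⟨m1, m2⟩ := Prod.ext_iff.mp hM
  simp only [Xd, Yd] at l1 l2 m1 m2
  have f1 : (X : ZMod p) = X' := by
    linear_combination m2 - l2 + μ * l1 + s * m1
  have f2 : (Y : ZMod p) = Y' := by
    linear_combination m1 + μ * f1
  exact fin2 hp oX oY oX' oY' f1 f2 (by linear_combination l1 - s * f1) (by linear_combination l2 - s * f2)

/-- The `2 p - 3` designs of order `p ^ 2`. -/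
def D2 (p : ℕ) (i : ℕ) : ℤ → ℤ → ZMod p × ZMod p := if i < p then Xd p i else Yd p (i - p + 2)

theorem KV.square (hp : Nice p) {k : ℕ} (hk : k + 3 ≤ 2 * p) : KV (p * p) k := by
  have : Fact p.Prime := ⟨hp.prime⟩
  have : NeZero (p * p) := ⟨mul_ne_zero hp.prime.ne_zero hp.prime.ne_zero⟩
  refine KV.of (S := ZMod p × ZMod p) (by rw [Fintype.card_prod, ZMod.card]) (fun i : Fin k => D2 p i) ?_ ?_
  · intro i
    have hi := i.isLt
    show IsKV (p * p) (D2 p i)
    unfold D2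
    split_ifs with h
    · exact Xd_kv hp _
    · exact Yd_kv hp (by omega) (by omega)
  · intro i j hij
    have hi := i.isLt
    have hj := j.isLt
    have hij' : i.val ≠ j.val := fun h => hij (Fin.ext h)
    show Orth (p * p) (D2 p i) (D2 p j)
    unfold D2
    split_ifs with h1 h2 h2
    · exact Xd_orth hp h1 h2 hij'
    · exact XY_orth hp _ _
    · exact (XY_orth hp _ _).symm
    · exact Yd_orth hp (by omega) (by omega) (by omega)

end Pool.Agent.KVP88
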