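import Pool.Agent.KVP88.Base
import Pool.Agent.KVP88.Queens2

/-!
# Digits of the squares of a board of order `p ^ e` and the queens coordinates
-/

namespace Pool.Agent.KVP88

/-- The four directions of lines on the board. -/
def Dir (α β : ℤ) : Prop := (α = 1 ∧ β = 0) ∨ (α = 0 ∧ β = 1) ∨ (α = 1 ∧ β = -1) ∨ (α = 1 ∧ β = 1)

theorem eq_zero_of_small {p x : ℤ} (h : p ∣ x) (h1 : -p < x) (h2 : x < p) : x = 0 := by
  apply Int.eq_zero_of_abs_lt_dvd h
  rw [abs_lt]
  exact ⟨h1, h2⟩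

theorem queens {p : ℤ} (hp : 5 ≤ p) (h2 : p % 2 = 1) (c2 : IsCoprime p 2) (c3 : IsCoprime p 3)
    {α β : ℤ} (hD : Dir α β) {a b a' b' ε : ℤ} (ha : 0 ≤ a) (ha1 : a < p) (hb : 0 ≤ b)
    (hb1 : b < p) (ha' : 0 ≤ a') (ha1' : a' < p) (hb' : 0 ≤ b') (hb1' : b' < p)
    (hε : α * a + β * b - (α * a' + β * b') = p * ε)
    (h : p ∣ (α * U a b + β * V p a b) - (α * U a' b' + β * V p a' b') + 6 * ε) :
    a = a' ∧ b = b' := by
  rcases hD with ⟨rfl, rfl⟩ | ⟨rfl, rfl⟩ | ⟨rfl, rfl⟩ | ⟨rfl, rfl⟩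
  · have e0 : a - a' = 0 := by
      apply eq_zero_of_small (p := p) ⟨ε, by linarith⟩ <;> omega
    have e1 : ε = 0 := by
      have : p * ε = 0 := by linarith
      rcases mul_eq_zero.mp this with h0 | h0
      · omega
      · exact h0
    have e2 : a = a' := by omega
    subst e2
    subst e1
    refine ⟨rfl, ?_⟩
    apply col hp c2 ha ha1 hb hb1 hb' hb1'
    have e3 : U a b - U a b' = (1 * U a b + 0 * V p a b) - (1 * U a b' + 0 * V p a b') + 6 * 0 := by ring
    rw [e3]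
    exact h
  · have e0 : b - b' = 0 := by
      apply eq_zero_of_small (p := p) ⟨ε, by linarith⟩ <;> omega
    have e1 : ε = 0 := by
      have : p * ε = 0 := by linarith
      rcases mul_eq_zero.mp this with h0 | h0
      · omega
      · exact h0
    have e2 : b = b' := by omega
    subst e2
    subst e1
    refine ⟨?_, rfl⟩
    apply row hp h2 c3 ha ha1 hb hb1 ha' ha1'
    have e3 : V p a b - V p a' b = (0 * U a b + 1 * V p a b) - (0 * U a' b + 1 * V p a' b) + 6 * 0 := by ring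
    rw [e3]
    exact h
  · apply diag hp h2 c2 ha ha1 hb hb1 ha' ha1' hb' hb1' (ε := ε) (by linarith)
    have e3 : (U a b - V p a b) - (U a' b' - V p a' b') + 6 * ε =
      (1 * U a b + -1 * V p a b) - (1 * U a' b' + -1 * V p a' b') + 6 * ε := by ring
    rw [e3]
    exact h
  · apply anti hp h2 c2 c3 ha ha1 hb hb1 ha' ha1' hb' hb1' (ε := ε) (by linarith)
    have e3 : (U a b + V p a b) - (U a' b' + V p a' b') + 6 * ε =
      (1 * U a b + 1 * V p a b) - (1 * U a' b' + 1 * V p a' b') + 6 * ε := by ring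
    rw [e3]
    exact h

/-- First queens coordinate of a square. -/
def w1 (p : ℕ) (X Y : ℤ) : ZMod p := ((6 * (X / p) - U (X % p) (Y % p) : ℤ) : ZMod p)

/-- Second queens coordinate of a square. -/
def w2 (p : ℕ) (X Y : ℤ) : ZMod p := ((6 * (Y / p) - V p (X % p) (Y % p) : ℤ) : ZMod p)

section

variable {p : ℕ}

/-- The standing hypotheses on `p`. -/
structure Nice (p : ℕ) : Prop where
  prime : p.Prime
  five : 5 ≤ p

theorem Nice.five' (h : Nice p) : (5 : ℤ) ≤ p := by exact_mod_cast h.five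

theorem Nice.odd (h : Nice p) : (p : ℤ) % 2 = 1 := by
  have h5 := h.five
  have := h.prime.eq_two_or_odd
  omega

theorem Nice.cop (h : Nice p) {k : ℕ} (hk : 0 < k) (hk5 : k < 5) : IsCoprime (p : ℤ) (k : ℤ) := by
  rw [Nat.isCoprime_iff_coprime]
  exact Nat.coprime_of_lt_prime hk.ne' (lt_of_lt_of_le hk5 h.five) h.prime

theorem level (hp : Nice p) {α β : ℤ} (hD : Dir α β) {X Y X' Y' : ℤ}
    (h : ((p * p : ℕ) : ℤ) ∣ α * X + β * Y - (α * X' + β * Y'))
    (hw : (α : ZMod p) * w1 p X Y + β * w2 p X Y = α * w1 p X' Y' + β * w2 p X' Y') :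
    X % p = X' % p ∧ Y % p = Y' % p := by
  have hp5 := hp.five'
  have p0 : (0 : ℤ) < p := by omega
  have pne : (p : ℤ) ≠ 0 := p0.ne'
  obtain ⟨k, hk⟩ := h
  have hw' : ((α * (6 * (X / p) - U (X % p) (Y % p)) + β * (6 * (Y / p) - V p (X % p) (Y % p)) : ℤ) : ZMod p)
      = ((α * (6 * (X' / p) - U (X' % p) (Y' % p)) + β * (6 * (Y' / p) - V p (X' % p) (Y' % p)) : ℤ) : ZMod p) := by
    simp only [Int.cast_add, Int.cast_mul]
    exact hw
  rw [ZMod.intCast_eq_intCast_iff_dvd_sub] at hw'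
  obtain ⟨l, hl⟩ := hw'
  have eX := Int.emod_add_mul_ediv X p
  have eY := Int.emod_add_mul_ediv Y p
  have eX' := Int.emod_add_mul_ediv X' p
  have eY' := Int.emod_add_mul_ediv Y' p
  push_cast at hk
  refine queens hp5 hp.odd (hp.cop (k := 2) (by norm_num) (by norm_num))
    (hp.cop (k := 3) (by norm_num) (by norm_num)) hD
    (Int.emod_nonneg _ pne) (Int.emod_lt_of_pos _ p0) (Int.emod_nonneg _ pne) (Int.emod_lt_of_pos _ p0)
    (Int.emod_nonneg _ pne) (Int.emod_lt_of_pos _ p0) (Int.emod_nonneg _ pne) (Int.emod_lt_of_pos _ p0)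
    (ε := p * k - (α * (X / p) + β * (Y / p) - (α * (X' / p) + β * (Y' / p)))) ?_ ?_
  · linear_combination hk + α * eX + β * eY - α * eX' - β * eY'
  · exact ⟨6 * k + l, by linear_combination hl⟩

theorem descent {q m : ℤ} (hq : q ≠ 0) {α β X Y X' Y' : ℤ}
    (h : q * m ∣ α * X + β * Y - (α * X' + β * Y')) (hX : X % q = X' % q) (hY : Y % q = Y' % q) :
    m ∣ α * (X / q) + β * (Y / q) - (α * (X' / q) + β * (Y' / q)) := by
  obtain ⟨k, hk⟩ := h
  have eX := Int.emod_add_mul_ediv X q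
  have eY := Int.emod_add_mul_ediv Y q
  have eX' := Int.emod_add_mul_ediv X' q
  have eY' := Int.emod_add_mul_ediv Y' q
  refine ⟨k, mul_left_cancel₀ hq ?_⟩
  linear_combination hk + α * eX + β * eY - α * eX' - β * eY' - α * hX - β * hY

/-- Residues: equality in `ZMod p`. -/
theorem emod_eq (X X' : ℤ) : ((X : ℤ) : ZMod p) = ((X' : ℤ) : ZMod p) ↔ X % p = X' % p := by
  rw [ZMod.intCast_eq_intCast_iff]
  rfl

theorem unw (hp : Nice p) {X Y X' Y' : ℤ} (hX : X % p = X' % p) (hY : Y % p = Y' % p)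
    (h1 : w1 p X Y = w1 p X' Y') (h2 : w2 p X Y = w2 p X' Y') :
    (X / p) % p = (X' / p) % p ∧ (Y / p) % p = (Y' / p) % p := by
  have : Fact p.Prime := ⟨hp.prime⟩
  have h6 : (6 : ZMod p) ≠ 0 := by
    have h2 : ((2 : ℕ) : ZMod p) ≠ 0 := by
      rw [Ne, ZMod.natCast_eq_zero_iff]
      intro h
      have := Nat.le_of_dvd (by norm_num) h
      have := hp.five
      omega
    have h3 : ((3 : ℕ) : ZMod p) ≠ 0 := by
      rw [Ne, ZMod.natCast_eq_zero_iff]
      intro h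
      have := Nat.le_of_dvd (by norm_num) h
      have := hp.five
      omega
    have : (6 : ZMod p) = ((2 : ℕ) : ZMod p) * ((3 : ℕ) : ZMod p) := by push_cast; norm_num
    rw [this]
    exact mul_ne_zero h2 h3
  unfold w1 at h1
  unfold w2 at h2
  rw [hX, hY] at h1 h2
  constructor
  · rw [← emod_eq]
    apply mul_left_cancel₀ h6
    simp only [Int.cast_sub, Int.cast_mul, Int.cast_ofNat] at h1
    exact sub_left_injective h1
  · rw [← emod_eq]
    apply mul_left_cancel₀ h6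
    simp only [Int.cast_sub, Int.cast_mul, Int.cast_ofNat] at h2
    exact sub_left_injective h2

theorem eq_of_digits {q : ℤ} {X X' : ℤ} (h0 : X % q = X' % q) (h1 : X / q = X' / q) : X = X' := by
  have eX := Int.emod_add_mul_ediv X q
  have eX' := Int.emod_add_mul_ediv X' q
  rw [← eX, ← eX', h0, h1]

theorem eq_of_emod_small {q : ℤ} {X X' : ℤ} (h : X % q = X' % q) (h0 : 0 ≤ X) (h1 : X < q)
    (h0' : 0 ≤ X') (h1' : X' < q) : X = X' := by
  rwa [Int.emod_eq_of_lt h0 h1, Int.emod_eq_of_lt h0' h1'] at h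

/-- Squares of the board of order `n`. -/
def OnB (n : ℕ) (X : ℤ) : Prop := 0 ≤ X ∧ X < n

theorem OnB.div {m : ℕ} (hp : 0 < p) {X : ℤ} (h : OnB (p * m) X) : OnB m (X / p) := by
  have p0 : (0 : ℤ) < p := by exact_mod_cast hp
  refine ⟨Int.ediv_nonneg h.1 p0.le, ?_⟩
  apply Int.ediv_lt_of_lt_mul p0
  have := h.2
  push_cast at this
  linarith

/-- The four line conditions, for a function of two integers. -/
def IsKV (n : ℕ) {S : Type} (L : ℤ → ℤ → S) : Prop :=
  ∀ α β, Dir α β → ∀ X Y X' Y', OnB n X → OnB n Y → OnB n X' → OnB n Y' → L X Y = L X' Y' →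
    (n : ℤ) ∣ α * X + β * Y - (α * X' + β * Y') → X = X' ∧ Y = Y'

/-- Orthogonality, for functions of two integers. -/
def Orth (n : ℕ) {S : Type} (L M : ℤ → ℤ → S) : Prop :=
  ∀ X Y X' Y', OnB n X → OnB n Y → OnB n X' → OnB n Y' → L X Y = L X' Y' → M X Y = M X' Y' →
    X = X' ∧ Y = Y'

theorem KV.of {n k : ℕ} [NeZero n] {S : Type} [Fintype S] (hS : Fintype.card S = n)
    (L : Fin k → ℤ → ℤ → S) (h1 : ∀ i, IsKV n (L i)) (h2 : ∀ i j, i ≠ j → Orth n (L i) (L j)) :
    KV n k := by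
  have ob : ∀ u : ZMod n, OnB n (u.val : ℤ) := fun u =>
    ⟨by positivity, by exact_mod_cast ZMod.val_lt u⟩
  have cv : ∀ u : ZMod n, (((u.val : ℤ)) : ZMod n) = u := by
    intro u
    rw [Int.cast_natCast, ZMod.natCast_zmod_val]
  have inj : ∀ u u' : ZMod n, (u.val : ℤ) = u'.val → u = u' := by
    intro u u' h
    apply ZMod.val_injective
    exact_mod_cast h
  have main : ∀ (i : Fin k) (α β : ℤ), Dir α β → ∀ u v u' v' : ZMod n,
      L i u.val v.val = L i u'.val v'.val → (α : ZMod n) * u + β * v = α * u' + β * v' →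
      u = u' ∧ v = v' := by
    intro i α β hD u v u' v' hL hd
    have hdv : (n : ℤ) ∣ α * (u.val : ℤ) + β * (v.val : ℤ) - (α * (u'.val : ℤ) + β * (v'.val : ℤ)) := by
      rw [← ZMod.intCast_eq_intCast_iff_dvd_sub]
      simp only [Int.cast_add, Int.cast_mul, cv]
      exact hd.symm
    obtain ⟨e1, e2⟩ := h1 i α β hD _ _ _ _ (ob u) (ob v) (ob u') (ob v') hL hdv
    exact ⟨inj _ _ e1, inj _ _ e2⟩
  refine ⟨S, inferInstance, hS, fun i u v => L i u.val v.val, ?_, ?_, ?_, ?_, ?_⟩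
  · intro i u v v' h
    exact (main i 1 0 (Or.inl ⟨rfl, rfl⟩) u v u v' h (by simp)).2
  · intro i u u' v h
    exact (main i 0 1 (Or.inr (Or.inl ⟨rfl, rfl⟩)) u v u' v h (by simp)).1
  · intro i u v u' v' h hd
    refine (main i 1 (-1) (Or.inr (Or.inr (Or.inl ⟨rfl, rfl⟩))) u v u' v' h ?_).1
    push_cast
    linear_combination hd
  · intro i u v u' v' h hd
    refine (main i 1 1 (Or.inr (Or.inr (Or.inr ⟨rfl, rfl⟩))) u v u' v' h ?_).1
    push_cast
    linear_combination hd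
  · intro i j hij u v u' v' hi hj
    obtain ⟨e1, e2⟩ := h2 i j hij _ _ _ _ (ob u) (ob v) (ob u') (ob v') hi hj
    exact ⟨inj _ _ e1, inj _ _ e2⟩

end

end Pool.Agent.KVP88
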